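import Pool.Agent.TDV.StmtsD

/-!
# Squad TDV, module CFI: the theorem for commuting permutations (uses CSQ CIV CFW CBW CME CTL)
-/

set_option autoImplicit false

noncomputable section

namespace Pool.Agent.TDV.H69

open Pool.Agent.TDV Pool.Agent.Helper25TD

theorem countable_closure {G : Type*} [Group G] {S : Set G} (h : S.Countable) :
    Countable (Subgroup.closure S) := by
  rw [FreeGroup.closure_eq_range]
  haveI : Countable S := h.to_subtype
  haveI : Countable (FreeGroup S) := by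
    unfold FreeGroup
    infer_instance
  exact (MonoidHom.rangeRestrict_surjective _).countable

/-- CFI -/
theorem cfi (csq : CsqStmt) (civ : CivStmt) (cfw : CfwStmt) (cbw : CbwStmt) (cme : CmeStmt)
    (ctl : CtlStmt) : CfiStmt := by
  intro S hS hcom
  haveI := countable_closure hS
  obtain ⟨g', hg'⟩ := exists_surjective_nat (Subgroup.closure S)
  haveI hc := Subgroup.isMulCommutative_closure hcom
  set g : ℕ → Equiv.Perm ℕ := fun k => (g' k : Equiv.Perm ℕ) with hgdef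
  have hg : CG g := by
    refine ⟨?_, fun i j => ?_, fun i => ?_, fun i j => ?_⟩
    · obtain ⟨k, hk⟩ := hg' 1
      exact ⟨k, by simp only [hgdef, hk]; rfl⟩
    · obtain ⟨k, hk⟩ := hg' (g' i * g' j)
      exact ⟨k, by simp only [hgdef, hk]; rfl⟩
    · obtain ⟨k, hk⟩ := hg' (g' i)⁻¹
      exact ⟨k, by simp only [hgdef, hk]; rfl⟩
    · exact congrArg Subtype.val (mul_comm' (g' i) (g' j))
  obtain ⟨p, c, hd⟩ := csq g
  obtain ⟨P, Q, D, hP, hQ, hD, hctl⟩ := ctl
  obtain ⟨hR, hDD⟩ := cme g p c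
  have hset : ∀ B : Set (ℕ → Bool),
      {x | RR g p c 0 x ∧ (¬ RR g p c 1 x ∨ DD g p c x ∈ P)} ∪
        ({x | RR g p c 0 x ∧ DD g p c x ∈ Q} ∩ (fun x => D (DD g p c x)) ⁻¹' B) =
      AB g p c (P ∪ (Q ∩ D ⁻¹' B)) := by
    intro B
    ext x
    simp only [AB, Set.mem_union, Set.mem_inter_iff, Set.mem_setOf_eq, Set.mem_preimage]
    tauto
  refine ⟨{x | RR g p c 0 x ∧ (¬ RR g p c 1 x ∨ DD g p c x ∈ P)},
    {x | RR g p c 0 x ∧ DD g p c x ∈ Q}, fun x => D (DD g p c x), ?_, ?_, ?_, fun B => ?_⟩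
  · exact (hR 0).inter ((hR 1).compl.union (hDD hP))
  · exact (hR 0).inter (hDD hQ)
  · exact hD.comp hDD
  · rw [hset B]
    obtain ⟨ht, hI, hII⟩ := hctl B
    refine ⟨fun h hh x => ?_, ?_, ?_⟩
    · obtain ⟨k, hk⟩ := hg' ⟨h, Subgroup.subset_closure hh⟩
      have := civ g p c hg hd _ ht k x
      have hgk : g k = h := by simp only [hgdef, hk]
      rwa [hgk] at this
    · exact ⟨fun h => hI.1 ((cbw g p c hg hd _ ht).1 h), fun h => (cfw g p c hg hd _ ht).1 (hI.2 h)⟩
    · exact ⟨fun h => hII.1 ((cbw g p c hg hd _ ht).2 h),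
        fun h => (cfw g p c hg hd _ ht).2 (hII.2 h)⟩

end Pool.Agent.TDV.H69
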