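import Pool.Agent.TDV.StmtsD

/-!
# Squad TDV, module CIV: the coded set is invariant (uses CUN)
-/

set_option autoImplicit false

noncomputable section

namespace Pool.Agent.TDV.H69

open Pool.Agent.TDV

variable {g : ℕ → Equiv.Perm ℕ} {p : ℕ → ℕ} {c : ℕ → Bool}

theorem copy_iff {r k i i' : ℕ} {x : ℕ → Bool} (h : g i' = g k * g i) :
    Copy g p c r (fun n => x (g k n)) i ↔ Copy g p c r x i' := by
  unfold Copy
  simp only [h, Equiv.Perm.mul_apply]

theorem rr_iff (hg : CG g) {r k : ℕ} {x : ℕ → Bool} :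
    RR g p c r (fun n => x (g k n)) ↔ RR g p c r x := by
  constructor
  · rintro ⟨i, hi⟩
    obtain ⟨i', hi'⟩ := hg.mul k i
    exact ⟨i', (copy_iff hi').1 hi⟩
  · rintro ⟨i, hi⟩
    obtain ⟨a, ha⟩ := hg.inv k
    obtain ⟨i', hi'⟩ := hg.mul a i
    refine ⟨i', (copy_iff (i' := i) ?_).2 hi⟩
    rw [hi', ha, mul_inv_cancel_left]

theorem copy_ix {r : ℕ} {x : ℕ → Bool} (h : RR g p c r x) :
    Copy g p c r x (ix g p c r x) := by
  classical
  have h' : ∃ i, Copy g p c r x i := h
  unfold ix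
  rw [dif_pos h']
  exact Nat.find_spec h'

/-- CIV -/
theorem civ (cun : CunStmt) : CivStmt := by
  intro g p c hg hd B hB k x
  have r0 : RR g p c 0 (fun n => x (g k n)) ↔ RR g p c 0 x := rr_iff hg
  have r1 : RR g p c 1 (fun n => x (g k n)) ↔ RR g p c 1 x := rr_iff hg
  have key : RR g p c 0 x → RR g p c 1 x →
      (DD g p c x ∈ B ↔ DD g p c (fun n => x (g k n)) ∈ B) := by
    intro h0 h1
    have hr : ∀ r < 2, ∃ m, ∀ n ≥ m, n % 2 = r →
        g k (g (ix g p c r (fun n => x (g k n))) n) = g (ix g p c r x) n := by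
      intro r hr
      have hx : RR g p c r x := by interval_cases r <;> assumption
      have hx' : RR g p c (1 - r) x := by interval_cases r <;> assumption
      obtain ⟨k', hk'⟩ := hx'
      obtain ⟨i', hi'⟩ := hg.mul k (ix g p c r (fun n => x (g k n)))
      have h1' := (copy_iff hi').1 (copy_ix ((rr_iff hg).2 hx))
      obtain ⟨m, hm⟩ := cun g p c hg hd r hr x i' _ k' h1' (copy_ix hx) hk'
      refine ⟨m, fun n hn hn2 => ?_⟩
      have := hm n hn hn2
      rwa [hi', Equiv.Perm.mul_apply] at this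
    obtain ⟨m0, hm0⟩ := hr 0 (by norm_num)
    obtain ⟨m1, hm1⟩ := hr 1 (by norm_num)
    have hp : ∀ j, j ≤ p j := fun j => (strictMono_nat_of_lt_succ hd.lt).le_apply
    have heq : ∀ j ≥ max m0 m1, DD g p c x j = DD g p c (fun n => x (g k n)) j := by
      intro j hj
      have hj0 : m0 ≤ p j := (le_max_left m0 m1).trans (hj.le.trans (hp j))
      have hj1 : m1 ≤ p j := (le_max_right m0 m1).trans (hj.le.trans (hp j))
      unfold DD
      refine congrArg x ?_
      symm
      rcases Nat.mod_two_eq_zero_or_one j with h | h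
      · rw [h]; exact hm0 (p j) hj0 (by rw [hd.par, h])
      · rw [h]; exact hm1 (p j) hj1 (by rw [hd.par, h])
    exact ⟨hB _ _ ⟨_, heq⟩, hB _ _ ⟨_, fun n hn => (heq n hn).symm⟩⟩
  unfold AB
  simp only [Set.mem_setOf_eq, r0, r1]
  constructor
  · rintro ⟨h0, h⟩
    refine ⟨h0, ?_⟩
    by_cases h1 : RR g p c 1 x
    · exact Or.inr ((key h0 h1).1 (h.resolve_left (fun h' => h' h1)))
    · exact Or.inl h1
  · rintro ⟨h0, h⟩
    refine ⟨h0, ?_⟩
    by_cases h1 : RR g p c 1 x
    · exact Or.inr ((key h0 h1).2 (h.resolve_left (fun h' => h' h1)))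
    · exact Or.inl h1

end Pool.Agent.TDV.H69
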